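import Pool.Agent.W70.HR.Stm

/-! HR-MLA: translation of the engine statement `MomW`, all positions rough. -/

set_option autoImplicit false

open Finset

namespace Pool.Agent.W578.HR

open Pool.Agent.H361R2.PP
open Pool.Agent.H410R2
open Pool.Agent.W70.HR

theorem rho_lt {p : ℕ} (a : ℕ) (hp : 1 ≤ p) : rho p a < p := Nat.mod_lt _ hp

theorem not_prime_pow {J : ℕ} (hJ : 1 ≤ J) : ¬ (2 ^ 2 ^ J).Prime := by
  apply Nat.Prime.not_prime_pow
  calc 2 = 2 ^ 1 := rfl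
    _ ≤ 2 ^ J := Nat.pow_le_pow_right (by norm_num) hJ

/-- sums with the indicator -/
theorem sum_ind (S : Finset ℕ) (M : ℕ) (hM : ∀ n ∈ S, n < M) (f : ℕ → ℝ) :
    ∑ m ∈ range M, (if m ∈ S then (1 : ℝ) else 0) * f m = ∑ n ∈ S, f n := by
  have h1 : ∑ m ∈ range M, (if m ∈ S then (1 : ℝ) else 0) * f m =
      ∑ m ∈ range M, (if m ∈ S then f m else 0) := by
    apply Finset.sum_congr rfl
    intro m _
    split_ifs <;> simp
  rw [h1, ← Finset.sum_filter]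
  congr 1
  ext m
  simp only [Finset.mem_filter, Finset.mem_range]
  exact ⟨fun h => h.2, fun h => ⟨hM m h, h⟩⟩

theorem pos_sub (U : Finset ℕ) : AC.pos (fun a : {a // a ∈ U} => some a.1) = U := by
  ext a
  unfold AC.pos
  rw [Finset.mem_eraseNone, Finset.mem_image]
  constructor
  · rintro ⟨x, _, hx⟩
    have : x.1 = a := Option.some.inj hx
    rw [← this]; exact x.2
  · intro ha
    exact ⟨⟨a, ha⟩, Finset.mem_univ _, rfl⟩

theorem EE_mono {K b J : ℕ} {P2 : Finset ℕ} {A v δ E' E : ℝ} (hP : ∀ p ∈ P2, 1 < p)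
    (hE : E' ≤ E) : EN.EE K b J P2 A v δ E' ≤ EN.EE K b J P2 A v δ E := by
  unfold EN.EE
  have h1 : 0 ≤ AC.Pi1 P2 := by
    unfold AC.Pi1
    apply Finset.prod_nonneg
    intro p hp
    have h2 : (1 : ℝ) < p := by exact_mod_cast hP p hp
    have h3 : 0 ≤ 1 / ((p : ℝ) - 1) := div_nonneg zero_le_one (by linarith)
    linarith
  have h2 : 0 ≤ (K : ℝ) * AC.Pi1 P2 ^ K := by positivity
  have h3 : ((J : ℝ) + 2) * E' ≤ ((J : ℝ) + 2) * E :=
    mul_le_mul_of_nonneg_left hE (by positivity)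
  have := mul_le_mul_of_nonneg_left h3 h2
  linarith

theorem mla : Pool.Agent.H410R2.EN.MomW → Pool.Agent.H361R2.PP.Sm1 →
    Pool.Agent.H361R2.PP.Sm3 → Pool.Agent.W70.HR.S_MLA := by
  classical
  intro hMW h1 h3 N
  obtain ⟨hr, hrg, hFF⟩ := h1
  obtain ⟨K, hK1, HK⟩ := hMW N
  refine ⟨K, hK1, ?_⟩
  intro o δ X b J D0 D2 P2' S Ω Er U F F' d E hUN hJ hKb hKH hHJ hJ1 hP2 hFP hprod hΩ hEq hE hD0
    hd1 hdl halt
  -- the primes
  have hP1 : ∀ p ∈ P1 (HH X) J, p.Prime ∧ HH X < p ∧ p ≤ 2 ^ 2 ^ J := by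
    intro p hp
    simp only [P1, Finset.mem_filter, Finset.mem_range] at hp
    exact ⟨hp.2.1, hp.2.2, hp.1.le⟩
  have hP2a : ∀ p ∈ P2', p.Prime ∧ HH X < p ∧ 2 ^ 2 ^ J < p := by
    intro p hp
    obtain ⟨hpp, hple⟩ := hP2 p hp
    refine ⟨hpp, lt_of_lt_of_le hHJ hple, lt_of_le_of_ne hple ?_⟩
    intro he
    rw [← he] at hpp
    exact not_prime_pow hJ1 hpp
  have hpr : ∀ p ∈ P1 (HH X) J ∪ P2', p.Prime := by
    intro p hp
    rcases Finset.mem_union.mp hp with h | h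
    · exact (hP1 p h).1
    · exact (hP2 p h).1
  have hge1 : ∀ p ∈ P1 (HH X) J ∪ P2', 1 ≤ p := fun p hp => (hpr p hp).one_lt.le
  have hge1a : ∀ p ∈ P1 (HH X) J, 1 ≤ p := fun p hp => hge1 p (Finset.mem_union_left _ hp)
  have hge1b : ∀ p ∈ P2', 1 ≤ p := fun p hp => hge1 p (Finset.mem_union_right _ hp)
  have hM : ∀ n ∈ S, n < S.sup id + 1 := by
    intro n hn
    exact Nat.lt_succ_of_le (Finset.le_sup (f := id) hn)
  obtain ⟨hEqd, hDens⟩ := h3 o (P1 (HH X) J ∪ P2') S Ω Er (S.sup id + 1) D0 hpr hEq hM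
  set M := S.sup id + 1 with hMdef
  set w : ℕ → ℝ := fun n => if n ∈ S then 1 else 0 with hw
  have hw0 : ∀ m, 0 ≤ w m := by
    intro m; simp only [hw]; split_ifs <;> norm_num
  set σ : {a // a ∈ U} → Option ℕ := fun a => some a.1 with hσ
  have hpos : AC.pos σ = U := pos_sub U
  have hposU : AC.pos σ ∪ AC.pos σ = U := by rw [hpos, Finset.union_self]
  have hcard : Fintype.card {a // a ∈ U} ≤ N := by
    rw [Fintype.card_coe]; exact hUN
  have hstd : ∀ G : ℕ → Finset (Finset ℕ), (∀ a ∈ U, ∀ R ∈ G a, R ⊆ P2') →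
      AC.Std rho P2' (fun a : {a // a ∈ U} => G a.1) σ := by
    intro G hG
    refine ⟨?_, ?_, ?_, ?_⟩
    · intro τ τ' a h h'
      have e1 : τ.1 = a := Option.some.inj h
      have e2 : τ'.1 = a := Option.some.inj h'
      exact Subtype.ext (e1.trans e2.symm)
    · intro τ h
      simp [hσ] at h
    · intro τ R hR
      exact hG τ.1 τ.2 R hR
    · intro p hp a _
      exact rho_lt a (hge1b p hp)
  have hprod' : ∀ R ∈ Fintype.piFinset (fun a : {a // a ∈ U} => F a.1),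
      ∀ R' ∈ Fintype.piFinset (fun a : {a // a ∈ U} => F' a.1),
      (∏ τ, ∏ p ∈ R τ, p) * (∏ τ, ∏ p ∈ R' τ, p) ≤ D2 := by
    intro R hR R' hR'
    rw [Fintype.mem_piFinset] at hR hR'
    have h := hprod (fun a => if h : a ∈ U then R ⟨a, h⟩ else ∅)
      (fun a => if h : a ∈ U then R' ⟨a, h⟩ else ∅) (by
        intro a ha
        simp only [dif_pos ha]
        exact ⟨hR ⟨a, ha⟩, hR' ⟨a, ha⟩⟩)
    have e : ∀ Q : {a // a ∈ U} → Finset ℕ,
        ∏ a ∈ U, ∏ p ∈ (if h : a ∈ U then Q ⟨a, h⟩ else ∅), p = ∏ τ, ∏ p ∈ Q τ, p := by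
      intro Q
      rw [← Finset.prod_coe_sort U]
      apply Finset.prod_congr rfl
      intro τ _
      rw [dif_pos τ.2]
    rw [e R, e R'] at h
    exact h
  have hrho : ∀ p ∈ P1 (HH X) J, ∀ a ∈ AC.pos σ ∪ AC.pos σ, rho p a < p :=
    fun p hp a _ => rho_lt a (hge1a p hp)
  have key := HK {a // a ∈ U} hcard b J (HH X) D0 D2 (P1 (HH X) J) P2' rho (kk o) (ee o) w M Ω Er
    (fun a : {a // a ∈ U} => F a.1) (fun a : {a // a ∈ U} => F' a.1) σ σ d
    hKb hKH hP1 hP2a hDens hw0 hΩ hEqd hD0 hprod' (hstd F fun a ha => (hFP a ha).1)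
    (hstd F' fun a ha => (hFP a ha).2) hrho (by rw [hposU]; exact hdl) hd1
  rw [hposU] at key
  obtain ⟨key1, key2⟩ := key
  have hV1eq : EN.V1 (P1 (HH X) J) = VV δ X := by
    rw [hJ]; rfl
  rw [hV1eq] at key1 key2
  have hZZ : ∀ G : ℕ → Finset (Finset ℕ), (∀ a ∈ U, ∀ R ∈ G a, R ⊆ P2') → ∀ m : ℕ,
      AC.ZZ rho (fun a : {a // a ∈ U} => G a.1) σ m = ∏ a ∈ U, FS (G a) a m := by
    intro G hG m
    unfold AC.ZZ
    rw [← Finset.prod_coe_sort U]
    apply Finset.prod_congr rfl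
    intro τ _
    exact hFF (G τ.1) τ.1 m (fun R hR p hp => hge1b p (hG τ.1 τ.2 R hR hp))
  have hMM : EN.MM rho (P1 (HH X) J) w M (fun a : {a // a ∈ U} => F a.1)
      (fun a : {a // a ∈ U} => F' a.1) σ σ =
      ∑ n ∈ S, rU δ X U n * ((∏ a ∈ U, FS (F a) a n) * ∏ a ∈ U, FS (F' a) a n) := by
    unfold EN.MM
    simp only [hw]
    rw [sum_ind S M hM]
    apply Finset.sum_congr rfl
    intro n _
    rw [hposU, hZZ F (fun a ha => (hFP a ha).1), hZZ F' (fun a ha => (hFP a ha).2)]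
    congr 1
    unfold rU
    rw [← hJ]
    apply Finset.prod_congr rfl
    intro a _
    exact hrg _ _ _ hge1a
  have hEE : EN.EE K b J P2' Ω (VV δ X ^ U.card) d
      (EN.ET K (P1 (HH X) J ∪ P2') D0 Er) ≤ EN.EE K b J P2' Ω (VV δ X ^ U.card) d E :=
    EE_mono (fun p hp => (hP2 p hp).1.one_lt) hE
  rw [hMM] at key1 key2
  by_cases hall : ∀ a ∈ U, F a = F' a
  · rw [if_pos hall]
    have hSS : (fun a : {a // a ∈ U} => F a.1) = (fun a : {a // a ∈ U} => F' a.1) := by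
      funext τ
      exact hall τ.1 τ.2
    have h := key2 rfl hSS
    rw [Finset.prod_coe_sort U (fun a => AC.GG (F a))] at h
    exact h.trans hEE
  · rw [if_neg hall, sub_zero]
    rcases halt with h | ⟨a, ha, hdis⟩
    · exact absurd h hall
    · exact (key1 (Or.inr (Or.inr ⟨⟨a, ha⟩, ⟨a, ha⟩, a, rfl, rfl, hdis⟩))).trans hEE

end Pool.Agent.W578.HR
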